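import Pool.Agent.Lib.DS.R.RL
import Pool.Agent.Lib.DN.B.All
import Pool.Agent.Lib.DN.O.All
import Pool.Agent.Lib.DS.D.AuxK
import Pool.Agent.Lib.DI.B.A12

/-!
# Theorem DS (all imaginary quadratic fields), part R, module `R1`: algebraicity, complex conjugation (helper42)

Legendre's numbers are algebraic (`S_RL`); hence `A1`, `A3`, `X(z)`, `W(z)`, the quotients of the framings, `g`.
-/

set_option autoImplicit false

open scoped Pointwise nonZeroDivisors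

noncomputable section

namespace Pool.Agent.DS

open Pool.Agent.MuZ Pool.Agent.FW Pool.Agent.DN NumberField IsDedekindDomain
open Pool.Agent.DI (io ofC io_inj exists_io io_ofC ofC_io VP MP UP TP ex)

variable {n t : ℕ}

/-- The field of the algebraic numbers. -/
private abbrev AC : IntermediateField ℚ ℂ := algebraicClosure ℚ ℂ

private theorem mem_AC {z : ℂ} : z ∈ AC ↔ IsAlgebraic ℚ z := mem_algebraicClosure_iff

private theorem AC_sq {z : ℂ} (h : z ^ 2 ∈ AC) : z ∈ AC :=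
  mem_AC.2 (IsAlgebraic.of_pow (n := 2) (by norm_num) (mem_AC.1 h))

/-- Legendre's normalisation. -/
private theorem R1_leg [SqN n t] (hRL : S_RL) {b : Ideal (OO n t)} (hb : b ≠ ⊥) : ∃ T T' : ℂ,
    Ord2 b T T' ∧ wpC b T' - wpC b T ≠ 0 ∧
    (∀ z : ℂ, Tor n t z → wpC b z / (wpC b T' - wpC b T) ∈ AC) ∧
    ∀ z : ℂ, Tor n t z → wdC b z ^ 2 / (wpC b T' - wpC b T) ^ 3 ∈ AC := by
  obtain ⟨T, T', hT⟩ := exists_ord2 aL3 hb
  obtain ⟨h1, h2, h3, -⟩ := aB4 n t b hb T T' hT.t1 hT.t2 hT.t3 hT.t4 hT.t5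
  obtain ⟨-, -, h0, -⟩ := aB1 n t b hb
  have hs : wpC b T' - wpC b T ≠ 0 := sub_ne_zero.2 (Ne.symm h2)
  have hL : ∀ z : ℂ, Tor n t z → z ∉ Lam b → (wpC b z - wpC b T) / (wpC b T' - wpC b T) ∈ AC :=
    fun z hz hz' => mem_AC.2 (hRL n t b hb T T' hT z hz hz')
  have hl := hL (T + T') (hT.tor hb).2.2 hT.s2
  have hsT : wpC b T / (wpC b T' - wpC b T) ∈ AC := by
    have e : wpC b T / (wpC b T' - wpC b T) =
        -(1 + (wpC b (T + T') - wpC b T) / (wpC b T' - wpC b T)) / 3 := by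
      rw [div_eq_iff hs]
      have e1 : (wpC b (T + T') - wpC b T) / (wpC b T' - wpC b T) * (wpC b T' - wpC b T) =
          wpC b (T + T') - wpC b T := div_mul_cancel₀ _ hs
      linear_combination (1 / 3) * e1 + (1 / 3) * h1
    rw [e]
    exact div_mem (neg_mem (add_mem (one_mem _) hl)) (ofNat_mem _ 3)
  refine ⟨T, T', hT, hs, ?_, ?_⟩
  · intro z hz
    by_cases hz' : z ∈ Lam b
    · rw [(h0 z hz').1, zero_div]
      exact zero_mem _
    · have e : wpC b z / (wpC b T' - wpC b T) =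
          (wpC b z - wpC b T) / (wpC b T' - wpC b T) + wpC b T / (wpC b T' - wpC b T) := by
        rw [← add_div, sub_add_cancel]
      rw [e]
      exact add_mem (hL z hz hz') hsT
  · intro z hz
    by_cases hz' : z ∈ Lam b
    · rw [(h0 z hz').2, zero_pow (by norm_num), zero_div]
      exact zero_mem _
    · have e : wdC b z ^ 2 / (wpC b T' - wpC b T) ^ 3 =
          4 * ((wpC b z - wpC b T) / (wpC b T' - wpC b T)) *
            ((wpC b z - wpC b T) / (wpC b T' - wpC b T) - 1) *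
            ((wpC b z - wpC b T) / (wpC b T' - wpC b T) -
              (wpC b (T + T') - wpC b T) / (wpC b T' - wpC b T)) := by
        rw [h3 z hz', div_eq_iff (pow_ne_zero 3 hs)]
        field_simp
        ring
      rw [e]
      have hz1 := hL z hz hz'
      exact mul_mem (mul_mem (mul_mem (ofNat_mem _ 4) hz1) (sub_mem hz1 (one_mem _))) (sub_mem hz1 hl)

/-- The framing. -/
private theorem R1_fr [SqN n t] {b : Ideal (OO n t)} (hb : G15 b) {s : ℂ} (hs : s ≠ 0)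
    (h1 : ∀ z : ℂ, Tor n t z → wpC b z / s ∈ AC) (h2 : ∀ z : ℂ, Tor n t z → wdC b z ^ 2 / s ^ 3 ∈ AC) :
    fr b ≠ 0 ∧ fr b ^ 2 / s ∈ AC := by
  obtain ⟨-, -, -, -, -, h3⟩ := aB1 n t b hb.ne
  obtain ⟨h4, -⟩ := h3 hb.cop
  refine ⟨h4, ?_⟩
  have e0 : fr b = wdC b (1 / 3) / (wpC b (1 / 5) - wpC b (1 / 3)) := by
    unfold fr
    rw [if_pos ⟨hb.ne, hb.cop⟩]
  have h5 : wpC b (1 / 5) - wpC b (1 / 3) ≠ 0 := by
    intro h
    rw [h, div_zero] at e0
    exact h4 e0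
  have t3 : Tor n t (1 / 3) := by
    have := tor_nat_div (n := n) (t := t) (N := 3) (by norm_num)
    exact_mod_cast this
  have t5 : Tor n t (1 / 5) := by
    have := tor_nat_div (n := n) (t := t) (N := 5) (by norm_num)
    exact_mod_cast this
  have e : fr b ^ 2 / s = (wdC b (1 / 3) ^ 2 / s ^ 3) /
      (wpC b (1 / 5) / s - wpC b (1 / 3) / s) ^ 2 := by
    rw [e0, ← sub_div]
    field_simp
  rw [e]
  exact div_mem (h2 _ t3) (pow_mem (sub_mem (h1 _ t5) (h1 _ t3)) 2)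

/-- The numbers of one curve. -/
private theorem R1_one [SqN n t] {b : Ideal (OO n t)} (hb : G15 b) {s : ℂ} (hs : s ≠ 0)
    (h1 : ∀ z : ℂ, Tor n t z → wpC b z / s ∈ AC) (h2 : ∀ z : ℂ, Tor n t z → wdC b z ^ 2 / s ^ 3 ∈ AC) :
    A1 b ∈ AC ∧ A3 b ∈ AC ∧ ∀ z : ℂ, Tor n t z → XC b z ∈ AC ∧ WC b z ∈ AC := by
  obtain ⟨h4, h5⟩ := R1_fr hb hs h1 h2
  obtain ⟨-, -, -, -, -, h3⟩ := aB1 n t b hb.ne
  obtain ⟨-, -, -, e1, -, e2, -, -⟩ := h3 hb.cop
  have t3 : Tor n t (1 / 3) := by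
    have := tor_nat_div (n := n) (t := t) (N := 3) (by norm_num)
    exact_mod_cast this
  have t5 : Tor n t (1 / 5) := by
    have := tor_nat_div (n := n) (t := t) (N := 5) (by norm_num)
    exact_mod_cast this
  have hX : ∀ z : ℂ, Tor n t z → XC b z ∈ AC := by
    intro z hz
    have e : XC b z = (wpC b z / s - wpC b (1 / 3) / s) / (fr b ^ 2 / s) := by
      unfold XC
      rw [← sub_div]
      field_simp
    rw [e]
    exact div_mem (sub_mem (h1 _ hz) (h1 _ t3)) h5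
  refine ⟨AC_sq ?_, ?_, fun z hz => ⟨hX z hz, AC_sq ?_⟩⟩
  · have e : A1 b ^ 2 = 12 * (wpC b (1 / 3) / s) / (fr b ^ 2 / s) := by
      rw [e1]
      field_simp
    rw [e]
    exact div_mem (mul_mem (ofNat_mem _ 12) (h1 _ t3)) h5
  · rw [← e2]
    exact hX _ t5
  · have e : WC b z ^ 2 = (wdC b z ^ 2 / s ^ 3) / (fr b ^ 2 / s) ^ 3 := by
      unfold WC
      field_simp
    rw [e]
    exact div_mem (h2 _ hz) (pow_mem h5 3)

private theorem tor_z [SqN n t] {b : Ideal (OO n t)} (hb : b ≠ ⊥) {z : ℂ} (h : 2 * z ∈ Lam b) :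
    Tor n t z := by
  refine (tor_iff hb).2 ⟨2, by norm_num, ?_⟩
  push_cast
  exact h

/-- Isogenies. -/
private theorem R1_iso [SqN n t] {a b : Ideal (OO n t)} (ha : a ≠ ⊥) (hb : b ≠ ⊥) {s : ℂ}
    (h1 : ∀ z : ℂ, Tor n t z → wpC b z / s ∈ AC) {T T' : ℂ} (hT : Ord2 (a * b) T T') :
    (wpC (a * b) T' - wpC (a * b) T) / s ∈ AC := by
  have hab : a * b ≠ ⊥ := Eb.ne_mul ha hb
  obtain ⟨R, hR, -⟩ := (aL3 n t a b ha hb).2.2
  obtain ⟨h2, -⟩ := aB9 n t a b ha hb R hR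
  obtain ⟨t1, t2, -⟩ := hT.tor hab
  rw [h2 T' T hT.t4 hT.t2, Finset.sum_div]
  refine sum_mem fun u hu => ?_
  have hu' : Tor n t u := tor_lam hab (hR.mem u hu)
  rw [sub_div]
  exact sub_mem (h1 _ (tor_add t2 hu')) (h1 _ (tor_add t1 hu'))

private theorem R1_quot [SqN n t] (hRL : S_RL) {b b' : Ideal (OO n t)} (hb : G15 b) (hb' : G15 b') :
    fr b' / fr b ∈ AC := by
  obtain ⟨T, T', -, hs, h1, h2⟩ := R1_leg hRL hb.ne
  obtain ⟨U, U', -, hs', h1', h2'⟩ := R1_leg hRL hb'.ne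
  obtain ⟨h3, h4⟩ := R1_fr hb hs h1 h2
  obtain ⟨h3', h4'⟩ := R1_fr hb' hs' h1' h2'
  have hbb : b' * b ≠ ⊥ := Eb.ne_mul hb'.ne hb.ne
  obtain ⟨V, V', hV, hs'', -, -⟩ := R1_leg hRL hbb
  have h5 := R1_iso hb'.ne hb.ne h1 hV
  have h6 : (wpC (b' * b) V' - wpC (b' * b) V) / (wpC b' U' - wpC b' U) ∈ AC := by
    have hV' : Ord2 (b * b') V V' := by
      rw [mul_comm]
      exact hV
    have := R1_iso hb.ne hb'.ne h1' hV'
    rwa [mul_comm b b'] at this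
  refine AC_sq ?_
  have e : (fr b' / fr b) ^ 2 = fr b' ^ 2 / (wpC b' U' - wpC b' U) / (fr b ^ 2 / (wpC b T' - wpC b T)) *
      ((wpC (b' * b) V' - wpC (b' * b) V) / (wpC b T' - wpC b T) /
        ((wpC (b' * b) V' - wpC (b' * b) V) / (wpC b' U' - wpC b' U))) := by
    field_simp
  rw [e]
  exact mul_mem (div_mem h4' h4) (div_mem h5 h6)

private theorem g15_cj [SqN n t] {b : Ideal (OO n t)} (hb : G15 b) : G15 (cjI b) :=
  ⟨Eb.ne_cj aO3 hb.ne, ((aO3 n t).2.2.2.2.1 b 15).2 hb.cop⟩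

private theorem tor_conj {z : ℂ} (h : Tor n t z) : Tor n t ((starRingEnd ℂ) z) := by
  obtain ⟨v, N, hN, rfl⟩ := h
  exact ⟨cjO v, N, hN, by rw [map_div₀, conj_toC, map_natCast]⟩

/-- Algebraicity; complex conjugation. -/
theorem sR1 (h : S_RL) : S_R1 := by
  have hA : ∀ (n t : ℕ) [SqN n t] (b : Ideal (OO n t)), G15 b →
      io (a1O b) = A1 b ∧ io (a3O b) = A3 b ∧
      ∀ z : ℂ, Tor n t z → io (xO b z) = XC b z ∧ io (vO b z) = WC b z := by
    intro n t _ b hb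
    obtain ⟨T, T', -, hs, h1, h2⟩ := R1_leg h hb.ne
    obtain ⟨h3, h4, h5⟩ := R1_one hb hs h1 h2
    exact ⟨io_ofC _ (mem_AC.1 h3), io_ofC _ (mem_AC.1 h4), fun z hz =>
      ⟨io_ofC _ (mem_AC.1 (h5 z hz).1), io_ofC _ (mem_AC.1 (h5 z hz).2)⟩⟩
  refine ⟨?_, ?_⟩
  · intro n t _
    refine ⟨?_, ?_⟩
    · intro b hb
      obtain ⟨h1, h2, h3⟩ := hA n t b hb
      refine ⟨h1, h2, h3, ?_⟩
      intro b' hb'
      have h4 : io (rO b b') = fr b' / fr b := io_ofC _ (mem_AC.1 (R1_quot h hb hb'))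
      refine ⟨h4, ?_⟩
      intro h5
      rw [h5, map_zero] at h4
      have h6 := ((aB1 n t b hb.ne).2.2.2.2.2 hb.cop).1
      have h7 := ((aB1 n t b' hb'.ne).2.2.2.2.2 hb'.cop).1
      exact div_ne_zero h7 h6 h4.symm
    · intro m b hm hb hm2 hm15 z hz hz'
      refine io_ofC _ (mem_AC.1 ?_)
      obtain ⟨T, T', -, hs, h1, h2⟩ := R1_leg h hb.ne
      obtain ⟨-, -, h5⟩ := R1_one hb hs h1 h2
      rw [aB11 n t m b hm hb hm2 hm15 z hz']
      refine sum_mem fun u hu => ?_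
      have hu' : Tor n t u := tor_lam (Eb.ne_mul hm hb.ne) ((aB14 n t m b hm hb.ne hm2).1.mem u hu).1
      exact div_mem (h5 z hz).2 (sub_mem (h5 z hz).1 (h5 u hu').1)
  · obtain ⟨c, hc⟩ := Pool.Agent.DI.tA1
    refine ⟨c, hc, ?_⟩
    intro n t _ b hb
    obtain ⟨h1, h2, h3⟩ := hA n t b hb
    obtain ⟨h1', h2', h3'⟩ := hA n t (cjI b) (g15_cj hb)
    obtain ⟨-, -, h4⟩ := aB7 n t b hb.ne
    obtain ⟨-, -, h5, h6, h7⟩ := h4 hb.cop
    refine ⟨?_, ?_, ?_⟩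
    · apply io_inj
      rw [hc, h1, h1', h5]
    · apply io_inj
      rw [hc, h2, h2', h6]
    · intro z hz
      refine ⟨?_, ?_⟩
      · apply io_inj
        rw [hc, (h3 z hz).1, (h3' _ (tor_conj hz)).1, (h7 z).1]
      · apply io_inj
        rw [hc, (h3 z hz).2, (h3' _ (tor_conj hz)).2, (h7 z).2]

end Pool.Agent.DS
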