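import Pool.Agent.Lib.DN.R.PgG
import Pool.Agent.Lib.DS.R.R1

/-!
# Theorem DS (all imaginary quadratic fields), part R: Legendre's coordinate and the model `X` are good (helper58)

From helper46's theorem on potential good reduction (`DN/R/Pg*.lean`).
-/

set_option autoImplicit false

open scoped Pointwise nonZeroDivisors

noncomputable section

namespace Pool.Agent.DS

open Pool.Agent.MuZ Pool.Agent.FW Pool.Agent.DN NumberField IsDedekindDomain
open Pool.Agent.DI (io ofC io_inj exists_io io_ofC ofC_io VP MP UP TP ex)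

theorem sVLeg : S_VLeg := fun _ _ _ _ _ _ hv _ hb _ _ h => leg_good hv hb h

instance instVLeg : Fact S_VLeg := ⟨sVLeg⟩

section

variable {n t : ℕ} {Γ : Type} [LinearOrderedCommGroupWithZero Γ] {v : Valuation ℂ Γ} {b : Ideal (OO n t)}

theorem tr2 {e s a : ℂ} (hs : s ≠ 0) : c2 (e + a * s) s = c2 e s + 12 * a := by
  unfold c2
  field_simp

theorem tr4 {e s a : ℂ} (hs : s ≠ 0) : c4 b (e + a * s) s = c4 b e s + a * c2 e s + 6 * a ^ 2 := by
  unfold c4 c2
  field_simp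
  ring

theorem tr6 {e s a : ℂ} (hs : s ≠ 0) :
    c6 b (e + a * s) s = c6 b e s + 2 * a * c4 b e s + a ^ 2 * c2 e s + 4 * a ^ 3 := by
  unfold c6 c4 c2
  field_simp
  ring

theorem tr8 {e s a : ℂ} (hs : s ≠ 0) : c8 b (e + a * s) s =
    c8 b e s + 3 * a * c6 b e s + 3 * a ^ 2 * c4 b e s + a ^ 3 * c2 e s + 3 * a ^ 4 := by
  have h8 : c8 b (e + a * s) s = (c2 (e + a * s) s * c6 b (e + a * s) s - c4 b (e + a * s) s ^ 2) / 4 := rfl
  have h8' : c8 b e s = (c2 e s * c6 b e s - c4 b e s ^ 2) / 4 := rfl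
  rw [h8, h8', tr2 hs, tr4 hs, tr6 hs]
  ring

theorem trd {e s a : ℂ} (hs : s ≠ 0) :
    dsc (c2 (e + a * s) s) (c4 b (e + a * s) s) (c6 b (e + a * s) s) (c8 b (e + a * s) s) =
      dsc (c2 e s) (c4 b e s) (c6 b e s) (c8 b e s) := by
  have h8' : c8 b e s = (c2 e s * c6 b e s - c4 b e s ^ 2) / 4 := rfl
  rw [tr8 hs, tr2 hs, tr4 hs, tr6 hs, h8']
  unfold dsc
  ring

/-- Translation of a good coordinate. -/
theorem gcd_tr {e s a : ℂ} (h : GCd v b e s) (ha : v a ≤ 1) : GCd v b (e + a * s) s := by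
  have hs := h.ne
  refine ⟨⟨hs, ?_, ?_, ?_, ?_⟩, ?_⟩
  · rw [tr2 hs]
    exact vadd h.v2 (vmul (vof v 12) ha)
  · rw [tr4 hs]
    exact vadd (vadd h.v4 (vmul ha h.v2)) (vmul (vof v 6) (vpow ha 2))
  · rw [tr6 hs]
    exact vadd (vadd (vadd h.v6 (vmul (vmul (vof v 2) ha) h.v4)) (vmul (vpow ha 2) h.v2))
      (vmul (vof v 4) (vpow ha 3))
  · rw [tr8 hs]
    exact vadd (vadd (vadd (vadd h.v8 (vmul (vmul (vof v 3) ha) h.v6)) (vmul (vmul (vof v 3) (vpow ha 2)) h.v4))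
      (vmul (vpow ha 3) h.v2)) (vmul (vof v 3) (vpow ha 4))
  · rw [trd hs]
    exact h.ds

/-- The model `X` is good where `2` and `15` are units. -/
theorem mod_leg [SqN n t] (hv : v 2 = 1) (h15 : v 15 = 1) (hG : G15 b) :
    v (A3 b) = 1 ∧ v (A1 b) ≤ 1 ∧ v (A1 b ^ 3 - 27 * A3 b) = 1 := by
  have hb := hG.ne
  obtain ⟨hf, h30, hd, he, hx3, hx5, hv3, hg2, hg3⟩ := (aB1 n t b hG.ne).2.2.2.2.2 hG.cop
  obtain ⟨T, T', hT⟩ := ex_ord2 hb
  have hg := (leg_good hv hb hT).1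
  set e := wpC b T
  set s := wpC b T' - wpC b T
  have hK := sVCrd n t Γ v b e s hb hg.toICd
  have hs := hg.ne
  have hpt := aPt n t b hb hG.cop
  have one_mem : ∀ c : ℤ, (c : ℂ) ∈ Lam b := fun c => fun u _ =>
    ⟨u * (c : OO n t), by rw [toC_mul, toC_int]⟩
  have not15 : ∀ j : ℤ, ¬ (15 : ℤ) ∣ j → ¬ Kr v (Lam b) (xx b e s) ((j : ℂ) / 15) := by
    intro j hj h1
    have h2 := hK.ker_nat h1 (j := 15) (by exact_mod_cast h15) (by
      rw [nsmul_eq_mul]
      have : ((15 : ℕ) : ℂ) * ((j : ℂ) / 15) = j := by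
        push_cast
        ring
      rw [this]
      exact one_mem j)
    exact hj ((hpt j).1 h2)
  have n3 : ¬ Kr v (Lam b) (xx b e s) (1 / 3) := by
    have := not15 5 (by decide)
    have e1 : ((5 : ℤ) : ℂ) / 15 = 1 / 3 := by norm_num
    rwa [e1] at this
  have n5 : ¬ Kr v (Lam b) (xx b e s) (1 / 5) := by
    have := not15 3 (by decide)
    have e1 : ((3 : ℤ) : ℂ) / 15 = 1 / 5 := by norm_num
    rwa [e1] at this
  have i3 : v (xx b e s (1 / 3)) ≤ 1 := not_lt.1 fun h' => n3 (Or.inr h')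
  have i5 : v (xx b e s (1 / 5)) ≤ 1 := not_lt.1 fun h' => n5 (Or.inr h')
  have u53 : v (xx b e s (1 / 5) - xx b e s (1 / 3)) = 1 := by
    refine le_antisymm (vsub i5 i3) ?_
    by_contra hc
    rcases hK.sep hg.ds n5 n3 (not_le.1 hc) with h5 | h5
    · have := not15 8 (by decide)
      have e1 : ((8 : ℤ) : ℂ) / 15 = 1 / 5 + 1 / 3 := by push_cast; ring
      rw [e1] at this
      exact this h5
    · have := not15 (-2) (by decide)
      have e1 : ((-2 : ℤ) : ℂ) / 15 = 1 / 5 - 1 / 3 := by push_cast; ring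
      rw [e1] at this
      exact this h5
  -- the coordinate with origin `1/3`
  have hg' := gcd_tr hg i3
  have e3 : e + xx b e s (1 / 3) * s = wpC b (1 / 3) := by
    unfold xx
    field_simp
    ring
  rw [e3] at hg'
  -- `s = fr² r²`
  obtain ⟨r, hr⟩ : ∃ r : ℂ, r ^ 2 = s / fr b ^ 2 := IsAlgClosed.exists_pow_nat_eq _ (by norm_num)
  have hr0 : r ≠ 0 := by
    rintro rfl
    have h1 : s / fr b ^ 2 = 0 := by rw [← hr]; ring
    exact div_ne_zero hs (pow_ne_zero 2 hf) h1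
  have hsr : s = fr b ^ 2 * r ^ 2 := by
    rw [hr]
    field_simp
  obtain ⟨m2, m4, m6, m8, -, md, mx⟩ := mod_c hG hr0
  rw [← hsr] at m2 m4 m6 m8 md mx
  have hr2 : v (r ^ 2) ≠ 0 := (v.ne_zero_iff).2 (pow_ne_zero 2 hr0)
  -- `A3 / r²` is a unit
  have k1 : v (A3 b / r ^ 2) = 1 := by
    have h1 : xx b (wpC b (1 / 3)) s (1 / 5) = xx b e s (1 / 5) - xx b e s (1 / 3) := by
      unfold xx
      field_simp
      ring
    rw [← hx5, ← mx, h1]
    exact u53
  -- `A3² / r⁶` is a unit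
  have k2 : v (A3 b ^ 2 / r ^ 6) = 1 := by
    rw [← m6]
    refine le_antisymm hg'.v6 ?_
    by_contra hc
    rw [not_le] at hc
    have h2 : v (c4 b (wpC b (1 / 3)) s) < 1 := by
      refine mof_pow (j := 2) ?_
      have h3 : c4 b (wpC b (1 / 3)) s ^ 2 = c2 (wpC b (1 / 3)) s * c6 b (wpC b (1 / 3)) s := by
        rw [m2, m4, m6]
        field_simp
      rw [h3]
      exact mmul hg'.v2 hc
    have h4 : v (dsc (c2 (wpC b (1 / 3)) s) (c4 b (wpC b (1 / 3)) s) (c6 b (wpC b (1 / 3)) s)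
        (c8 b (wpC b (1 / 3)) s)) < 1 := by
      rw [m8]
      unfold dsc
      refine msub (msub (msub ?_ ?_) ?_) ?_
      · exact mmulr (mmul (vmul (vof v 9) hg'.v2) h2) hg'.v6
      · rw [mul_zero, v.map_zero]
        exact zero_lt_one
      · exact mmul (vof v 8) (mpow h2 three_ne_zero)
      · exact mmul (vof v 27) (mpow hc two_ne_zero)
    rw [hg'.ds] at h4
    exact lt_irrefl _ h4
  have k3 : v (r ^ 2) = 1 := by
    have h1 : (A3 b / r ^ 2) ^ 2 = (A3 b ^ 2 / r ^ 6) * r ^ 2 := by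
      field_simp
    have h2 := congrArg v h1
    rw [v.map_pow, k1, one_pow, v.map_mul, k2, one_mul] at h2
    exact h2.symm
  have k4 : v r = 1 := uof_pow two_ne_zero k3
  have r3 : v (A3 b) = 1 := by
    have h1 : A3 b = A3 b / r ^ 2 * r ^ 2 := by field_simp
    rw [h1, v.map_mul, k1, k3, one_mul]
  have r1 : v (A1 b) ≤ 1 := by
    refine vof_pow two_ne_zero ?_
    have h1 : A1 b ^ 2 = c2 (wpC b (1 / 3)) s * r ^ 2 := by
      rw [m2]
      field_simp
    rw [h1]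
    exact vmul hg'.v2 k3.le
  refine ⟨r3, r1, ?_⟩
  have h1 := hg'.ds
  rw [md, v.map_div, v.map_mul, v.map_pow, v.map_pow, r3, k4, one_pow, one_pow, one_mul, div_one] at h1
  exact h1

end

/-- **Good reduction** of the model `X` at all the primes not above `15`. -/
theorem sGQ (R1 : S_R1) : S_GQ := by
  intro n t _ Q hQ h15
  refine ⟨hQ, fun b hG => ?_⟩
  obtain ⟨V, hV⟩ := exists_VQ hQ
  obtain ⟨r1, r3, -, -⟩ := (R1.1 n t).1 b hG
  have key : V.valuation (A3 b) = 1 ∧ V.valuation (A1 b) ≤ 1 ∧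
      V.valuation (A1 b ^ 3 - 27 * A3 b) = 1 := by
    by_cases h2 : MP Q 2
    · obtain ⟨k1, k2, k3, -⟩ := mod_two (hV.two_lt h2) hG
      exact ⟨k1, k2, k3⟩
    · refine mod_leg (hV.two hQ h2) ?_ hG
      haveI := hQ.1
      have h3 := (hV.eq 15).2 ⟨by exact_mod_cast DI.VP.nat (P := Q) 15, h15⟩
      rwa [map_ofNat] at h3
  refine ⟨?_, ?_, ?_⟩
  · rw [← hV.le, r1]; exact key.2.1
  · rw [← hV.eq, r3]; exact key.1
  · rw [← hV.eq, map_sub, map_mul, map_pow, map_ofNat, r1, r3]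
    exact key.2.2

end Pool.Agent.DS
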