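import Pool.Agent.Lib.DS.IfaceD
import Pool.Agent.Lib.DN.D.Brg

/-!
# Theorem DS (all imaginary quadratic fields), part R: the kernel is an `O`-module where `2` is a unit (helper58, after helper46)

No condition on the prime `2` in `K`: halving in the kernel.
-/

set_option autoImplicit false

open scoped Pointwise nonZeroDivisors

noncomputable section

namespace Pool.Agent.DS

open Pool.Agent.MuZ Pool.Agent.FW Pool.Agent.DN NumberField IsDedekindDomain
open Pool.Agent.DI (io ofC io_inj exists_io io_ofC ofC_io VP MP UP TP ex)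

/-- Legendre's coordinate has good reduction at all `v` with `v 2 = 1`. -/
def S_VLeg : Prop :=
  ∀ (n t : ℕ) [SqN n t] (Γ : Type) [LinearOrderedCommGroupWithZero Γ] (v : Valuation ℂ Γ), v 2 = 1 →
    ∀ b : Ideal (OO n t), b ≠ ⊥ → ∀ T T' : ℂ, Ord2 b T T' →
      GCd v b (wpC b T) (wpC b T' - wpC b T) ∧
      v (xx b (wpC b T) (wpC b T' - wpC b T) (T + T')) = 1 ∧
      v (1 - xx b (wpC b T) (wpC b T' - wpC b T) (T + T')) = 1

/-- The kernel is an `O`-module, `v 2 = 1`. -/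
def S_VO : Prop :=
  ∀ (n t : ℕ) [SqN n t] (Γ : Type) [LinearOrderedCommGroupWithZero Γ] (v : Valuation ℂ Γ), v 2 = 1 →
    ∀ b : Ideal (OO n t), b ≠ ⊥ → ∀ e s : ℂ, GCd v b e s →
      (∀ (α : OO n t) (z : ℂ), Kr v (Lam b) (xx b e s) z → Kr v (Lam b) (xx b e s) (toC α * z)) ∧
      ∀ (α : OO n t) (z : ℂ), v (toC α) = 1 → Kr v (Lam b) (xx b e s) z → toC α * z ∈ Lam b → z ∈ Lam b

section

variable {n t : ℕ} {Γ : Type} [LinearOrderedCommGroupWithZero Γ] {v : Valuation ℂ Γ}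

/-- The cubic polynomial factors. -/
theorem xx_cub [SqN n t] {b : Ideal (OO n t)} (hb : b ≠ ⊥) {T T' : ℂ} (h : Ord2 b T T') {e s : ℂ}
    (hs : s ≠ 0) (x : ℂ) : 4 * x ^ 3 + c2 e s * x ^ 2 + 2 * c4 b e s * x + c6 b e s =
      4 * (x - xx b e s T) * (x - xx b e s T') * (x - xx b e s (T + T')) := by
  obtain ⟨h1, -, h3, h4⟩ := h.g hb
  have e2 : c2 e s = -4 * (xx b e s T + xx b e s T' + xx b e s (T + T')) := by
    unfold c2 xx
    rw [h1]
    field_simp
    ring
  have e4 : c4 b e s = 2 * (xx b e s T * xx b e s T' + xx b e s T * xx b e s (T + T') +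
      xx b e s T' * xx b e s (T + T')) := by
    unfold c4 xx
    rw [h1, h3]
    field_simp
    ring
  have e6 : c6 b e s = -4 * (xx b e s T * xx b e s T' * xx b e s (T + T')) := by
    unfold c6 xx
    rw [h1, h3, h4]
    field_simp
    ring
  rw [e2, e4, e6]
  ring

/-- HALVING IN THE KERNEL. -/
theorem kr_halv [SqN n t] (hv : v 2 = 1) {b : Ideal (OO n t)} (hb : b ≠ ⊥) {e s : ℂ} (hg : GCd v b e s)
    {z : ℂ} (hz : Kr v (Lam b) (xx b e s) z) :
    ∃ y : ℂ, Kr v (Lam b) (xx b e s) y ∧ 2 * y - z ∈ Lam b := by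
  have hK := sVCrd n t Γ v b e s hb hg.toICd
  by_cases h0 : z ∈ Lam b
  · refine ⟨0, hK.kr_zero, ?_⟩
    rw [mul_zero, zero_sub]
    exact lam_neg h0
  have h2y : z / 2 + z / 2 = z := by ring
  by_cases hy : Kr v (Lam b) (xx b e s) (z / 2)
  · refine ⟨z / 2, hy, ?_⟩
    have e1 : 2 * (z / 2) - z = 0 := by ring
    rw [e1]
    exact lam_zero b
  obtain ⟨T, T', h⟩ := ex_ord2 hb
  have hx : v (xx b e s (z / 2)) ≤ 1 := not_lt.1 fun h' => hy (Or.inr h')
  obtain ⟨-, hd⟩ := hK.dup (z / 2) (by rw [h2y]; exact h0)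
  rw [h2y, xx_cub hb h hg.ne] at hd
  have v4 := hK.v4
  have v6 := hK.v6
  have v8 := hK.v8
  have hF : v (xx b e s (z / 2) ^ 4 - c4 b e s * xx b e s (z / 2) ^ 2 - 2 * c6 b e s * xx b e s (z / 2) -
      c8 b e s) ≤ 1 :=
    vsub (vsub (vsub (vpow hx 4) (vmul v4 (vpow hx 2))) (vmul (vmul (vof v 2) v6) hx)) v8
  have hz1 : 1 < v (xx b e s z) := hz.resolve_left h0
  have hG : v (4 * (xx b e s (z / 2) - xx b e s T) * (xx b e s (z / 2) - xx b e s T') *
      (xx b e s (z / 2) - xx b e s (T + T'))) < 1 := by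
    by_contra hc
    have h5 := congrArg v hd
    rw [v.map_mul] at h5
    have h6 := one_lt_mul_of_lt_of_le' hz1 (not_lt.1 hc)
    rw [h5] at h6
    exact absurd h6 (not_lt.2 hF)
  have main : ∀ U : ℂ, 2 * U ∈ Lam b → U ∉ Lam b → v (xx b e s (z / 2) - xx b e s U) < 1 →
      ∃ y : ℂ, Kr v (Lam b) (xx b e s) y ∧ 2 * y - z ∈ Lam b := by
    intro U hU hU' hlt
    have hnU : ¬ Kr v (Lam b) (xx b e s) U := by
      rintro (h' | h')
      · exact hU' h'
      · exact absurd (ord2_val hv hb hg.toICd hU hU') (not_le.2 h')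
    rcases hK.sep hg.ds hy hnU hlt with h' | h'
    · refine ⟨z / 2 + U, h', ?_⟩
      have e1 : 2 * (z / 2 + U) - z = 2 * U := by ring
      rw [e1]
      exact hU
    · refine ⟨z / 2 - U, h', ?_⟩
      have e1 : 2 * (z / 2 - U) - z = -(2 * U) := by ring
      rw [e1]
      exact lam_neg hU
  rcases mcases hG with h5 | h5
  · rcases mcases h5 with h6 | h6
    · rcases mcases h6 with h7 | h7
      · exfalso
        have e4 : (4 : ℂ) = 2 * 2 := by norm_num
        rw [e4, v.map_mul, hv, one_mul] at h7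
        exact lt_irrefl _ h7
      · exact main T h.t1 h.t2 h7
    · exact main T' h.t3 h.t4 h6
  · exact main (T + T') h.t7 h.t6 h5

theorem cop_odd {α : OO n t} {k : ℤ} (h : Nm α = 2 * k + 1) : Cop α 2 := by
  unfold Cop
  rw [h]
  exact ⟨1, -k, by push_cast; ring⟩

theorem kr_w [SqN n t] (hv : v 2 = 1) {b : Ideal (OO n t)} (hb : b ≠ ⊥) {e s : ℂ} (hg : GCd v b e s) {z : ℂ}
    (hz : Kr v (Lam b) (xx b e s) z) : Kr v (Lam b) (xx b e s) (toC (wI n t) * z) := by
  have hK := sVCrd n t Γ v b e s hb hg.toICd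
  obtain ⟨T, T', h⟩ := ex_ord2 hb
  have key : ∀ y : ℂ, Kr v (Lam b) (xx b e s) y → Kr v (Lam b) (xx b e s) (2 * (toC (wI n t) * y)) := by
    intro y hy
    have hc : Cop (1 + 2 * wI n t) 2 := by
      refine cop_odd (k := (t : ℤ) + 2 * n) ?_
      have hr : (1 + 2 * wI n t : OO n t).re = 1 := by
        have : (2 : OO n t) * wI n t = wI n t + wI n t := two_mul _
        rw [this]
        simp [wI, re_one]
      have hi : (1 + 2 * wI n t : OO n t).im = 2 := by
        have : (2 : OO n t) * wI n t = wI n t + wI n t := two_mul _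
        rw [this]
        simp [wI, im_one]
      unfold Nm
      rw [hr, hi]
      ring
    have hne : (1 + 2 * wI n t : OO n t) ≠ 0 := by
      rintro h0
      rw [h0] at hc
      unfold Cop at hc
      rw [Nm_zero] at hc
      obtain ⟨x, y', hxy⟩ := hc
      push_cast at hxy
      omega
    have hpr : PrI (sp (1 + 2 * wI n t)) 2 := ((aO6 n t).2.2.2.1 2 _ two_pos).2 hc
    have h1 := kr_up hv (sp_ne hne) hb hpr hg (hg.sp hb hne) h hy
    rw [Kr_sp hb hne] at h1
    have h2 := hK.kr_sub h1 hy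
    have e1 : toC (1 + 2 * wI n t) * y - y = 2 * (toC (wI n t) * y) := by
      rw [toC_add, toC_mul, toC_one, toC_two]
      ring
    rwa [e1] at h2
  obtain ⟨y, hy, hyz⟩ := kr_halv hv hb hg hz
  have h3 : 2 * (toC (wI n t) * y) - toC (wI n t) * z ∈ Lam b := by
    have e1 : 2 * (toC (wI n t) * y) - toC (wI n t) * z = toC (wI n t) * (2 * y - z) := by ring
    rw [e1]
    exact lam_mul _ hyz
  exact (hK.kr_congr h3).1 (key y hy)

theorem kr_mul [SqN n t] (hv : v 2 = 1) {b : Ideal (OO n t)} (hb : b ≠ ⊥) {e s : ℂ} (hg : GCd v b e s)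
    (α : OO n t) {z : ℂ} (hz : Kr v (Lam b) (xx b e s) z) : Kr v (Lam b) (xx b e s) (toC α * z) := by
  have hK := sVCrd n t Γ v b e s hb hg.toICd
  have e1 : toC α * z = (α.re : ℂ) * z + (α.im : ℂ) * (toC (wI n t) * z) := by
    rw [toC_apply, toC_wI]
    ring
  rw [e1]
  exact hK.kr_add (hK.kr_int hz _) (hK.kr_int (kr_w hv hb hg hz) _)

theorem kr_unit' [SqN n t] (hv : v 2 = 1) {b : Ideal (OO n t)} (hb : b ≠ ⊥) {e s : ℂ} (hg : GCd v b e s)
    (α : OO n t) (z : ℂ) (h2 : v (toC α) = 1) (hz : Kr v (Lam b) (xx b e s) z) (hαz : toC α * z ∈ Lam b) :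
    z ∈ Lam b := by
  have hK := sVCrd n t Γ v b e s hb hg.toICd
  have hα0 : α ≠ 0 := by
    rintro rfl
    rw [toC_zero, v.map_zero] at h2
    exact zero_ne_one h2
  obtain ⟨N, hN⟩ : ∃ N : ℕ, (N : ℤ) = Nm α := ⟨(Nm α).toNat, Int.toNat_of_nonneg (Nm_nonneg α)⟩
  have hN0 : N ≠ 0 := by
    rintro rfl
    exact hα0 (Nm_eq_zero (by rw [← hN]; rfl))
  obtain ⟨j, M, hM, hNM⟩ := Nat.exists_eq_two_pow_mul_odd hN0
  have hNz : (N : ℂ) * z ∈ Lam b := by
    have h3 := lam_mul (cjO α) hαz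
    have h4 := toC_Nm α
    rw [← hN] at h4
    have e1 : (N : ℂ) * z = toC (cjO α) * (toC α * z) := by
      have : (N : ℂ) = toC α * toC (cjO α) := by exact_mod_cast h4
      rw [this]
      ring
    rw [e1]
    exact h3
  have hkz : Kr v (Lam b) (xx b e s) ((2 : ℂ) ^ j * z) := by
    have h3 := hK.kr_nsmul hz (2 ^ j)
    rw [nsmul_eq_mul] at h3
    push_cast at h3
    exact h3
  have hv2 : v (((2 ^ j : ℕ) : ℂ)) = 1 := by
    push_cast
    rw [v.map_pow, hv, one_pow]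
  suffices hzz : (2 : ℂ) ^ j * z ∈ Lam b by
    refine hK.ker_nat hz (j := 2 ^ j) hv2 ?_
    rw [nsmul_eq_mul]
    push_cast
    exact hzz
  have hMz : (M : ℂ) * ((2 : ℂ) ^ j * z) ∈ Lam b := by
    have e1 : (M : ℂ) * ((2 : ℂ) ^ j * z) = (N : ℂ) * z := by
      rw [hNM]
      push_cast
      ring
    rw [e1]
    exact hNz
  by_cases hvM : v (M : ℂ) = 1
  · refine hK.ker_nat hkz (j := M) hvM ?_
    rw [nsmul_eq_mul]
    exact hMz
  · have hvM' : v (M : ℂ) < 1 := lt_of_le_of_ne (vnat v M) hvM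
    obtain ⟨k, hk⟩ := hM
    have hc : Cop ((M : OO n t) + 2 * α) 2 := by
      have h1 : Cop (M : OO n t) 2 := by
        refine cop_odd (k := 2 * (k : ℤ) ^ 2 + 2 * k) ?_
        rw [Nm_nat, hk]
        push_cast
        ring
      refine cop_congr ?_ h1
      refine ⟨-α, ?_⟩
      push_cast
      ring
    have hne : (M : OO n t) + 2 * α ≠ 0 := by
      rintro h0
      rw [h0] at hc
      unfold Cop at hc
      rw [Nm_zero] at hc
      obtain ⟨x, y', hxy⟩ := hc
      push_cast at hxy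
      omega
    have hpr : PrI (sp ((M : OO n t) + 2 * α)) 2 := ((aO6 n t).2.2.2.1 2 _ two_pos).2 hc
    have hvβ : v (toC ((M : OO n t) + 2 * α)) = 1 := by
      rw [toC_add, toC_nat, toC_mul, toC_two]
      rw [v.map_add_eq_of_lt_right]
      · rw [v.map_mul, hv, one_mul, h2]
      · rw [v.map_mul, hv, one_mul, h2]
        exact hvM'
    obtain ⟨T, T', h⟩ := ex_ord2 hb
    refine ker_odd hv (sp_ne hne) hb hpr hg (hg.sp hb hne) h ?_ (lam_sp.2 ?_) hkz
    · rw [v.map_mul, v.map_pow, hvβ, one_pow, one_mul]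
    · have e1 : toC ((M : OO n t) + 2 * α) * ((2 : ℂ) ^ j * z) =
          (M : ℂ) * ((2 : ℂ) ^ j * z) + ((2 * 2 ^ j : ℕ) : ℂ) * (toC α * z) := by
        rw [toC_add, toC_nat, toC_mul, toC_two]
        push_cast
        ring
      rw [e1]
      exact lam_add hMz (lam_nat _ hαz)

/-- The form of `DN`. -/
theorem kr_unit [SqN n t] (hv : v 2 = 1) {b : Ideal (OO n t)} (hb : b ≠ ⊥) {e s : ℂ} (hg : GCd v b e s)
    (m : ℕ) : ∀ (α : OO n t) (z : ℂ), Nm α ≤ m → v (toC α) = 1 → Kr v (Lam b) (xx b e s) z →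
      toC α * z ∈ Lam b → z ∈ Lam b := fun α z _ h2 h3 h4 => kr_unit' hv hb hg α z h2 h3 h4

end

theorem sVO : S_VO := by
  intro n t _ Γ _ v hv b hb e s hg
  exact ⟨fun α z hz => kr_mul hv hb hg α hz, fun α z h1 h2 h3 => kr_unit' hv hb hg α z h1 h2 h3⟩

end Pool.Agent.DS
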