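import Pool.Agent.Lib.DS.IfaceD
import Pool.Agent.Lib.DN.R.Den

/-!
# Theorem DS (all imaginary quadratic fields), part R, module `R3`: injectivity modulo almost all primes (helper42)
-/

set_option autoImplicit false

open scoped Pointwise nonZeroDivisors

noncomputable section

namespace Pool.Agent.DS

open Pool.Agent.MuZ Pool.Agent.FW Pool.Agent.DN NumberField IsDedekindDomain
open Pool.Agent.DI (io ofC io_inj exists_io io_ofC ofC_io VP MP UP TP ex)

/-- Injectivity modulo almost all primes. -/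
theorem sR3 : S_R3 := by
  classical
  intro n t _
  obtain ⟨R, hR, hR'⟩ := a13_fin n t
  obtain ⟨B, hB, hB'⟩ := den_fin ((R ×ˢ R).image (fun c => a1O c.1 - a1O c.2) ∪
    (R ×ˢ R).image fun c => a3O c.1 - a3O c.2)
  refine ⟨B, hB, ?_⟩
  intro Q hQ hQB b b' hb hb' h1 h3
  obtain ⟨c, hc, e1, e3⟩ := hR' b hb
  obtain ⟨c', hc', e1', e3'⟩ := hR' b' hb'
  have i1 : a1O b = a1O c := by unfold a1O; rw [e1]
  have i3 : a3O b = a3O c := by unfold a3O; rw [e3]
  have i1' : a1O b' = a1O c' := by unfold a1O; rw [e1']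
  have i3' : a3O b' = a3O c' := by unfold a3O; rw [e3']
  rw [i1, i1'] at h1
  rw [i3, i3'] at h3
  rw [i1, i1', i3, i3']
  have m : (c, c') ∈ R ×ˢ R := Finset.mem_product.2 ⟨hc, hc'⟩
  refine ⟨?_, ?_⟩
  · by_contra h
    exact ((hB' Q hQ hQB (a1O c - a1O c') (Finset.mem_union_left _
      (Finset.mem_image.2 ⟨(c, c'), m, rfl⟩))).2 (sub_ne_zero.2 h)).2 h1
  · by_contra h
    exact ((hB' Q hQ hQB (a3O c - a3O c') (Finset.mem_union_right _
      (Finset.mem_image.2 ⟨(c, c'), m, rfl⟩))).2 (sub_ne_zero.2 h)).2 h3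

end Pool.Agent.DS
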