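import Pool.Agent.Lib.DS.R.VO
import Pool.Agent.Lib.DK.R.RA

/-!
# Theorem DS (all imaginary quadratic fields), part R: Legendre's coordinate is algebraic at the torsion points (helper46)
-/

set_option autoImplicit false

open scoped Pointwise nonZeroDivisors

noncomputable section

namespace Pool.Agent.DS

open Pool.Agent.MuZ Pool.Agent.FW Pool.Agent.DN NumberField IsDedekindDomain
open Pool.Agent.DI (io ofC io_inj exists_io io_ofC ofC_io VP MP UP TP ex)

/-- Legendre's coordinate is algebraic at the torsion points. -/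
def S_RL : Prop :=
  ∀ (n t : ℕ) [SqN n t] (b : Ideal (OO n t)), b ≠ ⊥ → ∀ T T' : ℂ, Ord2 b T T' → ∀ z : ℂ, Tor n t z →
    z ∉ Lam b → IsAlgebraic ℚ (xx b (wpC b T) (wpC b T' - wpC b T) z)

/-- The open input `S_VLeg` (potential good reduction), threaded as an instance. -/
theorem vLeg [h : Fact S_VLeg] : S_VLeg := h.out

variable [Fact S_VLeg]

theorem sRL : S_RL := by
  intro n t _ b hb T T' h z hz hzb
  by_contra hna
  obtain ⟨V, hV, hx⟩ := DK.sRA _ hna
  have hnat : ∀ j : ℕ, j ≠ 0 → V.valuation (j : ℂ) = 1 := fun j hj =>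
    alg_unit V hV (isAlgebraic_natCast j) (by exact_mod_cast hj)
  have hv : V.valuation (2 : ℂ) = 1 := by exact_mod_cast hnat 2 two_ne_zero
  obtain ⟨hg, -, -⟩ := vLeg n t _ V.valuation hv b hb T T' h
  have hK := sVCrd n t _ V.valuation b _ _ hb hg.toICd
  obtain ⟨N, hN, hNz⟩ := (tor_iff hb).1 hz
  have hk : Kr V.valuation (Lam b) (xx b (wpC b T) (wpC b T' - wpC b T)) z := by
    right
    by_contra hc
    exact hx ((V.valuation_le_one_iff _).1 (not_lt.1 hc))
  exact hzb (hK.ker_nat hk (hnat N hN.ne') (by rw [nsmul_eq_mul]; exact hNz))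

end Pool.Agent.DS
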